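import Mathlib

/-!
# Globally rigid squares of stars

Let `G` be the star `K_{1,m}`, `m ≥ 4`. It has no cycle, its square is the complete graph on
`m + 1 ≥ 5` vertices, which is globally rigid in `ℝ³`, but the multigraph `5 G` does not even contain
six edge-disjoint spanning trees: it has `5 m` edges and six spanning trees have `6 m`.
-/

set_option autoImplicit false

namespace Pool.Agent.Results.MP_f1f412_co.Stars

open Finset

/-- Two realisations have the same length on the pair `u, v`. -/
def SameDist {V : Type} (p q : V → EuclideanSpace ℝ (Fin 3)) (u v : V) : Prop :=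
  dist (q u) (q v) = dist (p u) (p v)

/-- The framework `(H, p)` in `ℝ³` is globally rigid. -/
def GloballyRigidAt {V : Type} (H : SimpleGraph V) (p : V → EuclideanSpace ℝ (Fin 3)) : Prop :=
  ∀ q : V → EuclideanSpace ℝ (Fin 3), (∀ u v, H.Adj u v → SameDist p q u v) →
    ∀ u v, SameDist p q u v

/-- The coordinates of the configuration are algebraically independent over `ℚ`. -/
def Generic {V : Type} (p : V → EuclideanSpace ℝ (Fin 3)) : Prop :=
  AlgebraicIndependent ℚ (fun i : V × Fin 3 => p i.1 i.2)

/-- `H` is generically globally rigid in `ℝ³`: some generic framework `(H, p)` is globally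
rigid. -/
def GloballyRigid {V : Type} (H : SimpleGraph V) : Prop :=
  ∃ p : V → EuclideanSpace ℝ (Fin 3), Generic p ∧ GloballyRigidAt H p

/-- Deleting at most `k - 1` vertices leaves a connected graph. -/
def KConnected {V : Type} (k : ℕ) (H : SimpleGraph V) : Prop :=
  ∀ S : Finset V, S.card < k → (H.induce {v | v ∉ S}).Connected

/-- The square of a graph: distinct vertices at distance at most two are adjacent. -/
def sq {V : Type} (G : SimpleGraph V) : SimpleGraph V where
  Adj u v := u ≠ v ∧ (G.Adj u v ∨ ∃ w, G.Adj u w ∧ G.Adj w v)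
  symm := ⟨fun _ _ h => ⟨h.1.symm, h.2.elim (fun h => Or.inl h.symm)
    (fun ⟨w, h1, h2⟩ => Or.inr ⟨w, h2.symm, h1.symm⟩)⟩⟩
  loopless := ⟨fun _ h => h.1 rfl⟩

/-- The edge set `F` of the multigraph `k G` (an edge of `k G` is an edge of `G` with an index
`< k`) contains a spanning tree of `G`: the underlying simple graph of `T` is a tree on all vertices
and no edge of `G` is used twice. -/
def IsSpanningTree {V : Type} {k : ℕ} (G : SimpleGraph V) (T : Finset (Sym2 V × Fin k)) : Prop :=
  (∀ e ∈ T, e.1 ∈ G.edgeSet) ∧ (∀ e ∈ T, ∀ e' ∈ T, e.1 = e'.1 → e = e') ∧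
    (SimpleGraph.fromEdgeSet {e | ∃ i, (e, i) ∈ T}).IsTree

/-- The multigraph `k G` without the edges in `D` contains `t` edge-disjoint spanning trees. -/
def TreeConnected {V : Type} {k : ℕ} (t : ℕ) (G : SimpleGraph V) (D : Finset (Sym2 V × Fin k)) :
    Prop :=
  ∃ T : Fin t → Finset (Sym2 V × Fin k), (∀ i, IsSpanningTree G (T i)) ∧ (∀ i, Disjoint (T i) D) ∧
    ∀ i j, i ≠ j → Disjoint (T i) (T j)

/-- The multigraph `k G` is highly `t`-tree-connected: it contains `t` edge-disjoint spanning trees
after the deletion of any single edge. -/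
def HighlyTreeConnected {V : Type} (k t : ℕ) (G : SimpleGraph V) : Prop :=
  ∀ e : Sym2 V × Fin k, e.1 ∈ G.edgeSet → TreeConnected t G {e}

/-- The star with centre `none` and leaves `some i`, `i < m`. -/
def star (m : ℕ) : SimpleGraph (Option (Fin m)) where
  Adj u v := (u = none ∧ v ≠ none) ∨ (u ≠ none ∧ v = none)
  symm := ⟨fun _ _ h => h.elim (fun h => Or.inr ⟨h.2, h.1⟩) (fun h => Or.inl ⟨h.2, h.1⟩)⟩
  loopless := ⟨fun _ h => h.elim (fun h => h.2 h.1) (fun h => h.1 h.2)⟩

lemma exists_algInd (ι : Type) [Fintype ι] : ∃ x : ι → ℝ, AlgebraicIndependent ℚ x := by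
  obtain ⟨s, hs⟩ := exists_isTranscendenceBasis ℚ ℝ
  have hinf : s.Infinite := by
    intro hfin
    have hc : s.Countable := hfin.countable
    have halg : Algebra.IsAlgebraic (Algebra.adjoin ℚ (Set.range ((↑) : s → ℝ))) ℝ := hs.isAlgebraic
    have h1 := Algebra.IsAlgebraic.cardinalMk_le_max (Algebra.adjoin ℚ (Set.range ((↑) : s → ℝ))) ℝ
    have h2 : Cardinal.mk (Algebra.adjoin ℚ (Set.range ((↑) : s → ℝ))) ≤ Cardinal.aleph0 := by
      refine (Algebra.cardinalMk_adjoin_le ℚ _).trans ?_
      simp only [Subtype.range_coe_subtype, Set.ofPred_mem_eq]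
      simp [hc]
    have h3 : Cardinal.mk ℝ ≤ Cardinal.aleph0 := h1.trans (by simpa using h2)
    rw [Cardinal.mk_real] at h3
    exact absurd h3 (not_le.mpr Cardinal.aleph0_lt_continuum)
  have : Infinite s := hinf.to_subtype
  obtain ⟨f⟩ : Nonempty (ι ↪ s) := by
    have hι : Cardinal.mk ι ≤ Cardinal.mk s :=
      (Cardinal.mk_le_aleph0 (α := ι)).trans (Cardinal.aleph0_le_mk s)
    exact (Cardinal.le_def ι s).mp hι
  exact ⟨fun i => (f i : ℝ), hs.1.comp f f.injective⟩

theorem exists_generic (V : Type) [Fintype V] :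
    ∃ p : V → EuclideanSpace ℝ (Fin 3), Generic p := by
  obtain ⟨x, hx⟩ := exists_algInd (V × Fin 3)
  exact ⟨fun v => WithLp.toLp 2 fun i => x (v, i), hx⟩

theorem rigid_top {V : Type} (p : V → EuclideanSpace ℝ (Fin 3)) :
    GloballyRigidAt (⊤ : SimpleGraph V) p := by
  intro q hq u v
  by_cases h : u = v
  · subst h
    simp [SameDist]
  · exact hq u v h

theorem sq_star (m : ℕ) : sq (star m) = ⊤ := by
  ext u v
  simp only [sq, star, SimpleGraph.top_adj]
  constructor
  · exact fun h => h.1
  · intro h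
    refine ⟨h, ?_⟩
    rcases u with _ | i <;> rcases v with _ | j
    · exact absurd rfl h
    · exact Or.inl (Or.inl ⟨rfl, by simp⟩)
    · exact Or.inl (Or.inr ⟨by simp, rfl⟩)
    · exact Or.inr ⟨none, Or.inr ⟨by simp, rfl⟩, Or.inl ⟨rfl, by simp⟩⟩

theorem kConnected_top {V : Type} [Fintype V] [DecidableEq V] (k : ℕ) (h : k ≤ Fintype.card V) :
    KConnected k (⊤ : SimpleGraph V) := by
  intro S hS
  have hne : ∃ v, v ∉ S := by
    by_contra hcon
    push Not at hcon
    have : S = univ := eq_univ_iff_forall.2 hcon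
    rw [this, card_univ] at hS
    omega
  obtain ⟨v, hv⟩ := hne
  have : Nonempty {v | v ∉ S} := ⟨⟨v, hv⟩⟩
  refine SimpleGraph.Connected.mk ?_
  intro a b
  by_cases hab : a = b
  · rw [hab]
  · refine SimpleGraph.Adj.reachable ?_
    rw [SimpleGraph.comap_adj]
    exact fun h => hab (Subtype.ext h)

theorem star_adj_some {m : ℕ} {i : Fin m} {v : Option (Fin m)} (h : (star m).Adj (some i) v) :
    v = none := by
  rcases h with h | h
  · exact absurd h.1 (by simp)
  · exact h.2

theorem star_acyclic (m : ℕ) : (star m).IsAcyclic := by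
  intro v c hc
  have key : ∀ (i : Fin m) (p : (star m).Walk (some i) none), p.IsPath →
      s(some i, none) ∈ p.edges := by
    intro i p hp
    cases p with
    | @cons _ w _ h q =>
      obtain rfl := star_adj_some h
      simp
  cases c with
  | nil => exact hc.ne_nil rfl
  | @cons _ w _ h p =>
    rw [SimpleGraph.Walk.cons_isCycle_iff] at hc
    rcases v with _ | i
    · rcases w with _ | j
      · exact absurd h (SimpleGraph.irrefl _)
      · apply hc.2
        rw [Sym2.eq_swap]
        exact key j p hc.1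
    · obtain rfl := star_adj_some h
      apply hc.2
      have := key i p.reverse hc.1.reverse
      rwa [SimpleGraph.Walk.edges_reverse, List.mem_reverse] at this

/-- If some vertex of `G` has exactly one neighbour then `5 G` does not contain six edge-disjoint
spanning trees. -/
theorem leaf_obstruction {V : Type} (G : SimpleGraph V) (u c : V) (hu : ∀ w, G.Adj u w ↔ w = c)
    (D : Finset (Sym2 V × Fin 5)) : ¬ TreeConnected 6 G D := by
  rintro ⟨T, hT, -, hd⟩
  have huc : u ≠ c := fun h => SimpleGraph.irrefl G ((hu u).2 h)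
  have h1 : ∀ i : Fin 6, ∃ a : Fin 5, (s(u, c), a) ∈ T i := by
    intro i
    obtain ⟨hG, -, htree⟩ := hT i
    have hr := htree.1.preconnected u c
    obtain ⟨p⟩ := hr
    cases p with
    | nil => exact absurd rfl huc
    | @cons _ w _ h q =>
      rw [SimpleGraph.fromEdgeSet_adj] at h
      obtain ⟨⟨a, ha⟩, -⟩ := h
      have hw : w = c := (hu w).1 (by
        have := hG _ ha
        rwa [SimpleGraph.mem_edgeSet] at this)
      subst hw
      exact ⟨a, ha⟩
  choose a ha using h1
  obtain ⟨i, j, hij, he⟩ := Fintype.exists_ne_map_eq_of_card_lt a (by simp)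
  have := Finset.disjoint_left.1 (hd i j hij) (ha i)
  rw [he] at this
  exact this (ha j)

/-- **The criterion fails for stars.** For every `m ≥ 4` the star `G = K_{1,m}` has at least five
vertices and no cycle, `G²` is generically globally rigid in `ℝ³` and `4`-connected, but `5 G` is not
even `6`-tree-connected. Hence the asserted equivalence is false. -/
theorem result :
    (∀ m : ℕ, 4 ≤ m → 5 ≤ Fintype.card (Option (Fin m)) ∧ (star m).IsAcyclic ∧
      GloballyRigid (sq (star m)) ∧ KConnected 4 (sq (star m)) ∧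
      ¬ TreeConnected (k := 5) 6 (star m) ∅ ∧ ¬ HighlyTreeConnected 5 6 (star m)) ∧
    ¬ (∀ (V : Type) [Fintype V] (G : SimpleGraph V), 5 ≤ Fintype.card V →
      (∀ (v : V) (c : G.Walk v v), c.IsCycle → 4 < c.length) →
      (GloballyRigid (sq G) ↔ KConnected 4 (sq G) ∧ HighlyTreeConnected 5 6 G)) := by
  have key : ∀ m : ℕ, 4 ≤ m → 5 ≤ Fintype.card (Option (Fin m)) ∧ (star m).IsAcyclic ∧
      GloballyRigid (sq (star m)) ∧ KConnected 4 (sq (star m)) ∧
      ¬ TreeConnected (k := 5) 6 (star m) ∅ ∧ ¬ HighlyTreeConnected 5 6 (star m) := by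
    intro m hm
    have hcard : 5 ≤ Fintype.card (Option (Fin m)) := by simp; omega
    have hleaf : ∀ w, (star m).Adj (some ⟨0, by omega⟩) w ↔ w = none := by
      intro w
      constructor
      · exact star_adj_some
      · rintro rfl
        exact Or.inr ⟨by simp, rfl⟩
    refine ⟨hcard, star_acyclic m, ?_, ?_, leaf_obstruction _ _ _ hleaf _, ?_⟩
    · rw [sq_star]
      obtain ⟨p, hp⟩ := exists_generic (Option (Fin m))
      exact ⟨p, hp, rigid_top p⟩
    · rw [sq_star]
      exact kConnected_top 4 (by omega)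
    · intro H
      refine leaf_obstruction _ _ _ hleaf _ (H (s(some ⟨0, by omega⟩, none), 0) ?_)
      rw [SimpleGraph.mem_edgeSet]
      exact (hleaf none).2 rfl
  refine ⟨key, fun H => ?_⟩
  obtain ⟨h1, h2, h3, h4, -, h5⟩ := key 4 le_rfl
  exact h5 ((H (Option (Fin 4)) (star 4) h1 (fun v c hc => absurd hc (h2 c))).1 h3).2

end Pool.Agent.Results.MP_f1f412_co.Stars
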